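import Pool.Agent.helper36.UT.Spec

/-! Project UT, row DVC: quotients by constants. -/

set_option autoImplicit false

open Filter Polynomial FirstOrder FirstOrder.Language

namespace Pool.Agent.UnivT

theorem DVC (hLGD : LGD_stmt) (hAFF : AFF_stmt) (hMDL : MDL_stmt) : DVC_stmt := by
  intro k f c hf
  rcases Nat.eq_zero_or_pos c with rfl | hc
  · have e : (fun H => f H / ((0 : ℕ) : ℤ)) = fun _ => (0 : ℤ) := by
      funext H
      simp
    rw [e]
    exact (hLGD k).1 0
  · obtain ⟨r, hr⟩ := hMDL k f hf c hc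
    have hcq : (0 : ℚ) < (c : ℚ) := by exact_mod_cast hc
    refine hAFF k f _ (1 / c) (-(r : ℚ) / c) hf ?_
    filter_upwards [hr] with H h1
    have h3 := Int.mul_ediv_add_emod (f H) (c : ℤ)
    rw [h1] at h3
    have h4 : (c : ℚ) * ((f H / (c : ℤ) : ℤ) : ℚ) + (r : ℚ) = (f H : ℚ) := by exact_mod_cast h3
    field_simp
    linarith

end Pool.Agent.UnivT
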