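import Pool.Agent.helper60.UT.STD

/-! Project UT, row FRA: integer parts. -/

set_option autoImplicit false

open Filter Polynomial FirstOrder FirstOrder.Language

namespace Pool.Agent.UnivT

theorem FRA_smul (c : ℚ) (l : List (ℚ × (ℕ → ℤ))) (H : ℕ) :
    ev (l.map fun x => (c * x.1, x.2)) H = c * ev l H := by
  induction l with
  | nil => simp [ev]
  | cons x l ih =>
    rw [List.map_cons, ev_cons, ev_cons, ih]
    ring

theorem FRA (hLGD : LGD_stmt) (hMDL : MDL_stmt) : FRA_stmt := by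
  intro k q l hl
  obtain ⟨N, hN, hint⟩ := STD_int l fun x hx => (hl x hx).2
  have hNq : (0 : ℚ) < N := by exact_mod_cast hN
  have hdq : (0 : ℚ) < q.den := by exact_mod_cast q.den_pos
  have hM : 0 < N * q.den := Nat.mul_pos hN q.den_pos
  have hMq : (0 : ℚ) < ((N * q.den : ℕ) : ℚ) := by exact_mod_cast hM
  have h8 : (q.den : ℚ) * q = q.num := Rat.den_mul_eq_num q
  have hg : ∀ᶠ H : ℕ in atTop, ((⌊((N * q.den : ℕ) : ℚ) * (q + ev l H)⌋ : ℤ) : ℚ) =
      ((N * q.den : ℕ) : ℚ) * (q + ev l H) := by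
    filter_upwards [hint] with H h1
    obtain ⟨z, hz⟩ := h1
    have h2 : ((N * q.den : ℕ) : ℚ) * (q + ev l H) = ((N * q.num + q.den * z : ℤ) : ℚ) := by
      push_cast
      rw [← h8, ← hz]
      ring
    rw [h2, Int.floor_intCast]
  have hlev : Lev (k + 1) (fun H => ⌊((N * q.den : ℕ) : ℚ) * (q + ev l H)⌋) := by
    refine ⟨(((N * q.den : ℕ) : ℚ) * q, fun _ => 0) :: l.map fun x => (((N * q.den : ℕ) : ℚ) * x.1, x.2), ?_, ?_⟩
    · intro x hx
      rcases List.mem_cons.mp hx with rfl | hx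
      · exact (hLGD k).1 0
      · obtain ⟨y, hy, rfl⟩ := List.mem_map.mp hx
        exact (hl y hy).1
    · filter_upwards [hg] with H h1
      rw [h1, ev_cons, FRA_smul]
      simp only [zpow_zero]
      ring
  obtain ⟨r, hr⟩ := hMDL (k + 1) _ hlev (N * q.den) hM
  have hMz : (0 : ℤ) < ((N * q.den : ℕ) : ℤ) := by exact_mod_cast hM
  obtain ⟨H0, hH0⟩ := hr.exists
  have hr0 : 0 ≤ r := by rw [← hH0]; exact Int.emod_nonneg _ hMz.ne'
  have hr1 : r < ((N * q.den : ℕ) : ℤ) := by rw [← hH0]; exact Int.emod_lt_of_pos _ hMz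
  refine ⟨fun H => ⌊((N * q.den : ℕ) : ℚ) * (q + ev l H)⌋ / ((N * q.den : ℕ) : ℤ), (r : ℚ) / ((N * q.den : ℕ) : ℚ), ?_, ?_, ?_⟩
  · exact div_nonneg (by exact_mod_cast hr0) hMq.le
  · rw [div_lt_one hMq]
    exact_mod_cast hr1
  · filter_upwards [hg, hr] with H h1 h2
    have h3 := Int.mul_ediv_add_emod ⌊((N * q.den : ℕ) : ℚ) * (q + ev l H)⌋ ((N * q.den : ℕ) : ℤ)
    rw [h2] at h3
    have h4 : ((N * q.den : ℕ) : ℚ) * ((⌊((N * q.den : ℕ) : ℚ) * (q + ev l H)⌋ / ((N * q.den : ℕ) : ℤ) : ℤ) : ℚ) + (r : ℚ) =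
        ((⌊((N * q.den : ℕ) : ℚ) * (q + ev l H)⌋ : ℤ) : ℚ) := by
      exact_mod_cast h3
    rw [h1] at h4
    have h5 : ((⌊((N * q.den : ℕ) : ℚ) * (q + ev l H)⌋ / ((N * q.den : ℕ) : ℤ) : ℤ) : ℚ) =
        (((N * q.den : ℕ) : ℚ) * (q + ev l H) - r) / ((N * q.den : ℕ) : ℚ) := by
      rw [eq_div_iff hMq.ne']
      linarith
    rw [h5]
    field_simp
    ring

end Pool.Agent.UnivT
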