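import Pool.Agent.helper36.UT.Spec

/-! Project UT, row STD: the standard representation. -/

set_option autoImplicit false

open Filter Polynomial FirstOrder FirstOrder.Language

namespace Pool.Agent.UnivT

theorem STD_split (l : List (ℚ × (ℕ → ℤ))) (hl : ∀ x ∈ l, Tri x.2) :
    ∃ (q : ℚ) (a b : List (ℚ × (ℕ → ℤ))), a.Sublist l ∧ b.Sublist l ∧ (∀ x ∈ a, Tendsto x.2 atTop atTop) ∧
      (∀ x ∈ b, Tendsto x.2 atTop atBot) ∧ ∀ᶠ H : ℕ in atTop, ev l H = q + ev a H + ev b H := by
  induction l with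
  | nil =>
    refine ⟨0, [], [], List.Sublist.refl _, List.Sublist.refl _, by simp, by simp, Eventually.of_forall fun H => ?_⟩
    simp [ev]
  | cons x l ih =>
    obtain ⟨q, a, b, ha, hb, hta, htb, he⟩ := ih fun y hy => hl y (List.mem_cons_of_mem _ hy)
    rcases hl x List.mem_cons_self with ⟨c, hc⟩ | h | h
    · refine ⟨q + x.1 * (2 : ℚ) ^ c, a, b, ha.cons _, hb.cons _, hta, htb, ?_⟩
      filter_upwards [he, hc] with H h1 h2
      rw [ev_cons, h1, h2]
      ring
    · refine ⟨q, x :: a, b, ha.cons_cons _, hb.cons _, ?_, htb, ?_⟩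
      · intro y hy
        rcases List.mem_cons.mp hy with rfl | hy
        · exact h
        · exact hta y hy
      · filter_upwards [he] with H h1
        rw [ev_cons, ev_cons, h1]
        ring
    · refine ⟨q, a, x :: b, ha.cons _, hb.cons_cons _, hta, ?_, ?_⟩
      · intro y hy
        rcases List.mem_cons.mp hy with rfl | hy
        · exact h
        · exact htb y hy
      · filter_upwards [he] with H h1
        rw [ev_cons, ev_cons, h1]
        ring

theorem STD_int (l : List (ℚ × (ℕ → ℤ))) (hl : ∀ x ∈ l, Tendsto x.2 atTop atTop) :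
    ∃ N : ℕ, 0 < N ∧ ∀ᶠ H : ℕ in atTop, ∃ z : ℤ, (N : ℚ) * ev l H = z := by
  induction l with
  | nil => exact ⟨1, one_pos, Eventually.of_forall fun H => ⟨0, by simp [ev]⟩⟩
  | cons x l ih =>
    obtain ⟨N, hN, he⟩ := ih fun y hy => hl y (List.mem_cons_of_mem _ hy)
    refine ⟨x.1.den * N, Nat.mul_pos x.1.den_pos hN, ?_⟩
    filter_upwards [he, (hl x List.mem_cons_self).eventually_ge_atTop 0] with H h1 h2
    obtain ⟨z, hz⟩ := h1
    refine ⟨N * (x.1.num * 2 ^ (x.2 H).toNat) + x.1.den * z, ?_⟩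
    have h3 : (2 : ℚ) ^ (x.2 H) = ((2 ^ (x.2 H).toNat : ℤ) : ℚ) := by
      conv_lhs => rw [← Int.toNat_of_nonneg h2]
      rw [zpow_natCast]
      push_cast
      rfl
    have h4 : (x.1.den : ℚ) * x.1 = x.1.num := Rat.den_mul_eq_num x.1
    rw [ev_cons, h3]
    push_cast
    calc (x.1.den : ℚ) * N * (x.1 * 2 ^ (x.2 H).toNat + ev l H)
        = N * ((x.1.den * x.1) * 2 ^ (x.2 H).toNat) + x.1.den * (N * ev l H) := by ring
      _ = _ := by rw [h4, hz]

theorem STD (hLGD : LGD_stmt) (hNRM : NRM_stmt) (hDOM : DOM_stmt) : STD_stmt := by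
  intro k f hf
  obtain ⟨l0, hl0, hf0⟩ := hf
  have hG := hLGD k
  obtain ⟨l, hNF, hex, hev⟩ := hNRM (Lev k) hG l0 hl0
  have hlev : ∀ x ∈ l, Lev k x.2 := by
    intro x hx
    obtain ⟨y, hy, hxy⟩ := hex x hx
    rw [hxy]
    exact hl0 y hy
  obtain ⟨q, a, b, ha, hb, hta, htb, he⟩ := STD_split l fun x hx => hG.2.2.2 _ (hlev x hx)
  refine ⟨q, a, fun x hx => ⟨hlev x (ha.subset hx), hNF.2 x (ha.subset hx), hta x hx⟩, hNF.1.sublist ha, ?_⟩
  obtain ⟨N, hN, hint⟩ := STD_int a hta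
  have hNq : (0 : ℚ) < N := by exact_mod_cast hN
  have hdq : (0 : ℚ) < q.den := by exact_mod_cast q.den_pos
  have hfar : ∀ y ∈ b, Far (1, fun _ => 0) y := by
    intro y hy
    have h1 := htb y hy
    have h2 : Tendsto (fun H => - y.2 H) atTop atTop := tendsto_neg_atBot_atTop.comp h1
    unfold Far
    simpa using h2
  have hd := hDOM (1, fun _ => 0) b hfar (1 / (2 * (N * q.den))) (by positivity)
  filter_upwards [hf0, hev, he, hint, hd] with H h1 h2 h3 h4 h5
  obtain ⟨z, hz⟩ := h4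
  have h6 : (f H : ℚ) = q + ev a H + ev b H := by rw [h1, h2, h3]
  have h7 : |ev b H| ≤ 1 / (2 * (N * q.den)) := by simpa using h5
  have h8 : (q.den : ℚ) * q = q.num := Rat.den_mul_eq_num q
  have h9 : ((N : ℚ) * q.den) * ev b H = ((N * q.den * f H - N * q.num - q.den * z : ℤ) : ℚ) := by
    push_cast
    rw [← h8, ← hz, h6]
    ring
  have h10 : |((N : ℚ) * q.den) * ev b H| ≤ 1 / 2 := by
    rw [abs_mul, abs_of_pos (mul_pos hNq hdq)]
    calc (N : ℚ) * q.den * |ev b H| ≤ N * q.den * (1 / (2 * (N * q.den))) :=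
          mul_le_mul_of_nonneg_left h7 (mul_pos hNq hdq).le
      _ = 1 / 2 := by field_simp
  rw [h9] at h10
  have h11 : (N * q.den * f H - N * q.num - q.den * z : ℤ) = 0 := by
    have h12 : |(N * q.den * f H - N * q.num - q.den * z : ℤ)| < 1 := by
      have h13 : ((|(N * q.den * f H - N * q.num - q.den * z : ℤ)| : ℤ) : ℚ) < 1 := by
        rw [Int.cast_abs]
        linarith
      exact_mod_cast h13
    exact Int.abs_lt_one_iff.mp h12
  rw [h11] at h9
  have h14 : ev b H = 0 := by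
    have h15 : ((N : ℚ) * q.den) * ev b H = 0 := by rw [h9]; simp
    rcases mul_eq_zero.mp h15 with h | h
    · exact absurd h (mul_pos hNq hdq).ne'
    · exact h
  rw [h6, h14, add_zero]

end Pool.Agent.UnivT
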